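import Mathlib
import Pool.Agent.L7h19.FD.Stm
import Pool.Agent.L7h19.RP.Exp

/-!
# Project FD (helper19): S_CRD, the sum over the residue classes and the signs
-/

set_option autoImplicit false

namespace Pool.Agent.L7h46.FD

open Finset Polynomial Pool.Agent.W262.RK Pool.Agent.L7h19.RP Pool.Agent.L7h19.FD
open Pool.Agent.L7h19.RH (Q0)
open Pool.Agent.H474R2.PG (rho)

theorem s_CRD : S_CRD := by
  intro J _ _ cls f κ c z y hz hcz s hs Ψ
  classical
  have hT' : (∀ j, s j ∈ (PP z y).divisors) ∧ ∀ i j, i ≠ j → (s i).Coprime (s j) := by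
    unfold Tup at hs
    rw [mem_filter, Fintype.mem_piFinset] at hs
    exact hs
  have hsqj : ∀ j, Squarefree (s j) := fun j => dv_squarefree (hT'.1 j)
  set M := ∏ j, s j with hMd
  have hMsq : Squarefree M := by
    apply Finset.squarefree_prod_of_pairwise_isCoprime
    · intro i _ j _ hij
      exact Nat.coprime_iff_isRelPrime.1 (hT'.2 i j hij)
    · intro j _
      exact hsqj j
  have hm : ∏ p ∈ M.primeFactors, p = M := Nat.prod_primeFactors_of_squarefree hMsq
  have huniq : ∀ p : ℕ, p.Prime → ∀ i j, p ∣ s i → p ∣ s j → i = j := by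
    intro p hp i j hi hj
    by_contra hij
    have h1 := hT'.2 i j hij
    have h2 : p ∣ (s i).gcd (s j) := Nat.dvd_gcd hi hj
    rw [h1.gcd_eq_one] at h2
    exact hp.one_lt.ne' (Nat.dvd_one.1 h2)
  have hpfM : M.primeFactors = univ.biUnion (fun j => (s j).primeFactors) := by
    ext p
    rw [mem_biUnion]
    constructor
    · intro hp
      have hpp := Nat.prime_of_mem_primeFactors hp
      obtain ⟨j, _, hj⟩ := (hpp.prime.dvd_finsetProd_iff _).1 (Nat.dvd_of_mem_primeFactors hp)
      exact ⟨j, mem_univ _, Nat.mem_primeFactors.2 ⟨hpp, hj, (hsqj j).ne_zero⟩⟩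
    · rintro ⟨j, _, hj⟩
      exact Nat.mem_primeFactors.2 ⟨Nat.prime_of_mem_primeFactors hj,
        (Nat.dvd_of_mem_primeFactors hj).trans (dvd_prod_of_mem _ (mem_univ j)), hMsq.ne_zero⟩
  have hdisj : ((univ : Finset J) : Set J).PairwiseDisjoint (fun j => (s j).primeFactors) := by
    intro i _ j _ hij
    exact (hT'.2 i j hij).disjoint_primeFactors
  have hprod : ∀ h : ℕ → ℝ, ∏ p ∈ M.primeFactors, h p = ∏ j, ∏ p ∈ (s j).primeFactors, h p := by
    intro h
    rw [hpfM, Finset.prod_biUnion hdisj]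
  have hex : ∀ p ∈ M.primeFactors, ∃ j, p ∣ s j := by
    intro p hp
    rw [hpfM, mem_biUnion] at hp
    obtain ⟨j, _, hj⟩ := hp
    exact ⟨j, Nat.dvd_of_mem_primeFactors hj⟩
  have hfilt : ∀ p : ℕ, p.Prime → ∀ j, p ∣ s j → univ.filter (fun l => p ∣ s l) = {j} := by
    intro p hp j hj
    ext l
    simp only [mem_filter, mem_univ, true_and, mem_singleton]
    exact ⟨fun h => huniq p hp l j h hj, fun h => h ▸ hj⟩
  have hP3 : ∀ p, p ∈ P3 cls s ↔ p.Prime ∧ ∃ j, cls j = 3 ∧ p ∣ s j := by
    intro p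
    unfold P3
    rw [Nat.mem_primeFactors]
    constructor
    · rintro ⟨hp, hd, _⟩
      obtain ⟨j, hj, hjd⟩ := (hp.prime.dvd_finsetProd_iff _).1 hd
      exact ⟨hp, j, (mem_filter.1 hj).2, hjd⟩
    · rintro ⟨hp, j, hj, hjd⟩
      refine ⟨hp, hjd.trans (dvd_prod_of_mem _ (mem_filter.2 ⟨mem_univ _, hj⟩)), ?_⟩
      exact Finset.prod_ne_zero_iff.2 fun l _ => (hsqj l).ne_zero
  have hP3M : P3 cls s ⊆ M.primeFactors := by
    intro p hp
    obtain ⟨hpp, j, _, hj⟩ := (hP3 p).1 hp
    exact Nat.mem_primeFactors.2 ⟨hpp, hj.trans (dvd_prod_of_mem _ (mem_univ j)), hMsq.ne_zero⟩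
  have hiff : ∀ r : ℕ, (∀ j, (s j : ℤ) ∣ (f j).eval (r : ℤ)) ↔
      ∀ p ∈ M.primeFactors, ∀ j, p ∣ s j → (p : ℤ) ∣ (f j).eval (r : ℤ) := by
    intro r
    constructor
    · intro h p _ j hj
      exact (Int.natCast_dvd_natCast.2 hj).trans (h j)
    · intro h j
      have h1 : (s j : ℤ) = ∏ p ∈ (s j).primeFactors, (p : ℤ) := by
        conv_lhs => rw [← Nat.prod_primeFactors_of_squarefree (hsqj j)]
        push_cast
        rfl
      rw [h1]
      refine Finset.prod_dvd_of_coprime ?_ ?_
      · intro p hp q hq hpq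
        exact Nat.isCoprime_iff_coprime.2 ((Nat.coprime_primes (Nat.prime_of_mem_primeFactors hp)
          (Nat.prime_of_mem_primeFactors hq)).2 hpq)
      · intro p hp
        exact h p (Nat.mem_primeFactors.2 ⟨Nat.prime_of_mem_primeFactors hp,
          (Nat.dvd_of_mem_primeFactors hp).trans (dvd_prod_of_mem _ (mem_univ j)),
          hMsq.ne_zero⟩) j (Nat.dvd_of_mem_primeFactors hp)
  -- the local conditions
  set j3 : (Fin 3 → Finset ℕ) → ℕ → J → ℕ → Prop := fun E p j r =>
    ∀ i, (p ∈ E i ↔ jacobiSym ((κ j i).eval (r : ℤ)) p = -1) with hj3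
  set k3 : (Fin 3 → Finset ℕ) → ℕ → J → ℕ → Prop := fun E p j r =>
    ∀ i, (p ∈ E i ↔ ¬ jacobiSym ((κ j i).eval (r : ℤ)) p = -1) with hk3
  set nn : (Fin 3 → Finset ℕ) → ℕ → J → ℕ → Prop := fun E p j r =>
    (p ∈ E 0 ↔ jacobiSym ((κ j 0).eval (r : ℤ)) p = -1) ∧ p ∉ E 1 ∧ p ∉ E 2 with hnn
  set loc : (Fin 3 → Finset ℕ) → ℕ → J → ℕ → ℝ := fun E p j r =>
    if cls j = 3 then ((if j3 E p j r then 1 else 0) + (if k3 E p j r then 1 else 0)) / 2
    else if nn E p j r then 1 else 0 with hloc0
  set g : (Fin 3 → Finset ℕ) → ℕ → ℕ → ℝ := fun E p r =>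
    ∏ j ∈ univ.filter (fun j => p ∣ s j),
      ((if (p : ℤ) ∣ (f j).eval (r : ℤ) then 1 else 0) * loc E p j r) with hg
  have hgmod : ∀ E p r, g E p (r % p) = g E p r := by
    intro E p r
    have hmod := mod_self r p
    simp only [hg]
    refine Finset.prod_congr rfl fun j _ => ?_
    have h3 : ((p : ℤ) ∣ (f j).eval ((r % p : ℕ) : ℤ)) ↔ (p : ℤ) ∣ (f j).eval (r : ℤ) :=
      (eval_mod (f j) hmod).dvd_iff
    have h4 : ∀ i, jacobiSym ((κ j i).eval ((r % p : ℕ) : ℤ)) p =
        jacobiSym ((κ j i).eval (r : ℤ)) p := fun i => jacobiSym.mod_left' (eval_mod (κ j i) hmod)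
    simp only [hloc0, hj3, hk3, hnn, h3, h4]
  -- the patterns
  have hnF : ∀ (E : Fin 3 → Finset ℕ) (r : ℕ) (N : Finset ℕ),
      (∀ i, E i ⊆ M.primeFactors) →
      (nF cls κ s (r : ℤ) N = E ↔ ∀ p ∈ M.primeFactors, ∀ j, p ∣ s j → ∀ i, (p ∈ E i ↔
        ((cls j ≠ 3 ∧ i = 0 ∧ jacobiSym ((κ j 0).eval (r : ℤ)) p = -1) ∨
          (cls j = 3 ∧ (jacobiSym ((κ j i).eval (r : ℤ)) p = -1 ↔ p ∉ N))))) := by
    intro E r N hE
    have hQ : Q0 s = M.primeFactors := rfl
    constructor
    · intro h p hp j hj i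
      rw [← h]
      unfold nF
      rw [mem_filter, hQ]
      constructor
      · rintro ⟨_, l, hl, h'⟩
        rw [huniq p (Nat.prime_of_mem_primeFactors hp) l j hl hj] at h'
        exact h'
      · intro h'
        exact ⟨hp, j, hj, h'⟩
    · intro h
      funext i
      ext p
      unfold nF
      rw [mem_filter, hQ]
      constructor
      · rintro ⟨hp, l, hl, h'⟩
        exact (h p hp l hl i).2 h'
      · intro hpE
        have hp := hE i hpE
        obtain ⟨j, hj⟩ := hex p hp
        exact ⟨hp, j, hj, (h p hp j hj i).1 hpE⟩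
  have hkey : ∀ E : Fin 3 → Finset ℕ, (∀ i, E i ⊆ M.primeFactors) → ∀ r : ℕ,
      (1 / 2 : ℝ) ^ (P3 cls s).card * ∑ N ∈ (P3 cls s).powerset,
        (if nF cls κ s (r : ℤ) N = E then (1 : ℝ) else 0) =
      ∏ p ∈ M.primeFactors, ∏ j ∈ univ.filter (fun j => p ∣ s j), loc E p j r := by
    intro E hE r
    set a : ℕ → ℝ := fun p => ∏ j ∈ univ.filter (fun j => p ∣ s j),
      (if k3 E p j r then (1 / 2 : ℝ) else 0) with ha
    set b : ℕ → ℝ := fun p => ∏ j ∈ univ.filter (fun j => p ∣ s j),
      (if j3 E p j r then (1 / 2 : ℝ) else 0) with hb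
    rw [← Finset.prod_sdiff hP3M]
    have h1 : ∏ p ∈ P3 cls s, ∏ j ∈ univ.filter (fun j => p ∣ s j), loc E p j r =
        ∏ p ∈ P3 cls s, (a p + b p) := by
      refine Finset.prod_congr rfl fun p hp => ?_
      obtain ⟨hpp, j, hj3', hjd⟩ := (hP3 p).1 hp
      simp only [ha, hb]
      rw [hfilt p hpp j hjd, Finset.prod_singleton, Finset.prod_singleton, Finset.prod_singleton]
      simp only [hloc0]
      rw [if_pos hj3']
      split_ifs <;> norm_num
    rw [h1, Finset.prod_add, Finset.mul_sum, Finset.mul_sum]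
    refine Finset.sum_congr rfl fun N hN => ?_
    rw [mem_powerset] at hN
    have hcl : ∀ p ∈ P3 cls s, ∀ j, p ∣ s j → cls j = 3 := by
      intro p hp j hj
      obtain ⟨hpp, l, hl3, hld⟩ := (hP3 p).1 hp
      rw [huniq p hpp j l hj hld]
      exact hl3
    by_cases h : nF cls κ s (r : ℤ) N = E
    · have hl := (hnF E r N hE).1 h
      rw [if_pos h, mul_one]
      have hA : ∀ p ∈ N, a p = 1 / 2 := by
        intro p hp
        obtain ⟨hpp, j, hj3', hjd⟩ := (hP3 p).1 (hN hp)
        simp only [ha]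
        rw [hfilt p hpp j hjd, Finset.prod_singleton, if_pos]
        intro i
        have := hl p (hP3M (hN hp)) j hjd i
        simp only [hj3', ne_eq, not_true_eq_false, false_and, true_and, false_or, hp,
          iff_false] at this
        exact this
      have hB : ∀ p ∈ P3 cls s \ N, b p = 1 / 2 := by
        intro p hp
        rw [mem_sdiff] at hp
        obtain ⟨hpp, j, hj3', hjd⟩ := (hP3 p).1 hp.1
        simp only [hb]
        rw [hfilt p hpp j hjd, Finset.prod_singleton, if_pos]
        intro i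
        have := hl p (hP3M hp.1) j hjd i
        simp only [hj3', ne_eq, not_true_eq_false, false_and, true_and, false_or, hp.2,
          not_false_eq_true, iff_true] at this
        exact this
      have hC : ∀ p ∈ M.primeFactors \ P3 cls s,
          ∏ j ∈ univ.filter (fun j => p ∣ s j), loc E p j r = 1 := by
        intro p hp
        rw [mem_sdiff] at hp
        have hpp := Nat.prime_of_mem_primeFactors hp.1
        obtain ⟨j, hjd⟩ := hex p hp.1
        have hj3' : cls j ≠ 3 := fun h' => hp.2 ((hP3 p).2 ⟨hpp, j, h', hjd⟩)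
        rw [hfilt p hpp j hjd, Finset.prod_singleton]
        simp only [hloc0]
        rw [if_neg hj3', if_pos]
        have := hl p hp.1 j hjd
        simp only [ne_eq, hj3', not_false_eq_true, true_and, false_and, or_false] at this
        refine ⟨by simpa using this 0, by simpa using this 1, by simpa using this 2⟩
      rw [Finset.prod_congr rfl hA, Finset.prod_congr rfl hB, Finset.prod_congr rfl hC,
        Finset.prod_const, Finset.prod_const, Finset.prod_const, one_pow, one_mul, ← pow_add]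
      congr 1
      rw [add_comm]
      exact (Finset.card_sdiff_add_card_eq_card hN).symm
    · rw [if_neg h, mul_zero]
      rw [hnF E r N hE] at h
      push Not at h
      obtain ⟨p, hp, j, hjd, i, hne⟩ := h
      have hpp := Nat.prime_of_mem_primeFactors hp
      symm
      by_cases hp3 : p ∈ P3 cls s
      · have hj3' := hcl p hp3 j hjd
        by_cases hpN : p ∈ N
        · have : a p = 0 := by
            simp only [ha]
            rw [hfilt p hpp j hjd, Finset.prod_singleton, if_neg]
            intro hk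
            have hki := hk i
            simp only [hj3', ne_eq, not_true_eq_false, false_and, true_and, false_or, hpN,
              iff_false] at hne
            tauto
          rw [Finset.prod_eq_zero hpN this, zero_mul, mul_zero]
        · have : b p = 0 := by
            simp only [hb]
            rw [hfilt p hpp j hjd, Finset.prod_singleton, if_neg]
            intro hk
            have hki := hk i
            simp only [hj3', ne_eq, not_true_eq_false, false_and, true_and, false_or, hpN,
              not_false_eq_true, iff_true] at hne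
            tauto
          rw [Finset.prod_eq_zero (mem_sdiff.2 ⟨hp3, hpN⟩) this, mul_zero, mul_zero]
      · have hj3' : cls j ≠ 3 := fun h' => hp3 ((hP3 p).2 ⟨hpp, j, h', hjd⟩)
        have : ∏ j ∈ univ.filter (fun j => p ∣ s j), loc E p j r = 0 := by
          rw [hfilt p hpp j hjd, Finset.prod_singleton]
          simp only [hloc0]
          rw [if_neg hj3', if_neg]
          rintro ⟨h0, h1, h2⟩
          simp only [ne_eq, hj3', not_false_eq_true, true_and, false_and, or_false] at hne
          fin_cases i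
          · simp at hne
            tauto
          · simp at hne
            tauto
          · simp at hne
            tauto
        rw [Finset.prod_eq_zero (mem_sdiff.2 ⟨hp, hp3⟩) this, zero_mul]
  -- the weighted number of the classes with a given pattern
  have hcount : ∀ E : Fin 3 → Finset ℕ, (∀ i, E i ⊆ M.primeFactors) →
      ∑ r ∈ Rs f s, (1 / 2 : ℝ) ^ (P3 cls s).card * ∑ N ∈ (P3 cls s).powerset,
        (if nF cls κ s (r : ℤ) N = E then (1 : ℝ) else 0) =
        ∏ p ∈ M.primeFactors, ∑ ν ∈ range p, g E p ν := by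
    intro E hE
    rw [← sum_crt_prod M.primeFactors (fun p hp => Nat.prime_of_mem_primeFactors hp) (g E)
      (fun p _ r => hgmod E p r), hm]
    unfold Rs
    rw [Finset.sum_filter]
    refine Finset.sum_congr rfl fun r _ => ?_
    simp only [hg]
    rw [Finset.prod_congr rfl (fun p _ => Finset.prod_mul_distrib), Finset.prod_mul_distrib,
      ← hkey E hE r]
    by_cases hr : ∀ j, (s j : ℤ) ∣ (f j).eval (r : ℤ)
    · rw [if_pos hr]
      have : ∏ p ∈ M.primeFactors, ∏ j ∈ univ.filter (fun j => p ∣ s j),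
          (if (p : ℤ) ∣ (f j).eval (r : ℤ) then (1 : ℝ) else 0) = 1 := by
        refine Finset.prod_eq_one fun p hp => Finset.prod_eq_one fun j hj => ?_
        rw [if_pos ((hiff r).1 hr p hp j (mem_filter.1 hj).2)]
      rw [this, one_mul]
    · rw [if_neg hr]
      rw [hiff r] at hr
      push Not at hr
      obtain ⟨p, hp, j, hj, hn⟩ := hr
      have : ∏ p ∈ M.primeFactors, ∏ j ∈ univ.filter (fun j => p ∣ s j),
          (if (p : ℤ) ∣ (f j).eval (r : ℤ) then (1 : ℝ) else 0) = 0 := by
        refine Finset.prod_eq_zero hp (Finset.prod_eq_zero (mem_filter.2 ⟨mem_univ j, hj⟩) ?_)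
        rw [if_neg hn]
      rw [this, zero_mul]
  -- the local identity
  have hloc : ∀ E : Fin 3 → Finset ℕ, ∀ j, ∀ p ∈ (s j).primeFactors,
      (∑ ν ∈ range p, g E p ν) * (1 / ((p : ℝ) - c)) =
        WP cls f κ c j (fun i => decide (p ∈ E i)) p := by
    intro E j p hp
    have hpp := Nat.prime_of_mem_primeFactors hp
    have hpd := Nat.dvd_of_mem_primeFactors hp
    unfold WP
    rw [mul_comm]
    congr 1
    rw [Finset.sum_filter]
    refine Finset.sum_congr rfl fun ν _ => ?_
    simp only [hg]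
    rw [hfilt p hpp j hpd, Finset.prod_singleton]
    by_cases hν : (p : ℤ) ∣ (f j).eval (ν : ℤ)
    · rw [if_pos hν, if_pos hν, one_mul]
      simp only [hloc0, hj3, hk3, hnn, decide_eq_true_eq, decide_eq_false_iff_not]
    · rw [if_neg hν, if_neg hν, zero_mul]
  -- assembly
  unfold RSum avE
  have hfib : ∀ r : ℕ, ∀ N : Finset ℕ, Ψ s (nF cls κ s (r : ℤ) N) =
      ∑ E ∈ Fintype.piFinset (fun _ : Fin 3 => (Q0 s).powerset),
        Ψ s E * (if nF cls κ s (r : ℤ) N = E then (1 : ℝ) else 0) := by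
    intro r N
    have hmem : nF cls κ s (r : ℤ) N ∈ Fintype.piFinset (fun _ : Fin 3 => (Q0 s).powerset) := by
      rw [Fintype.mem_piFinset]
      intro i
      rw [mem_powerset]
      unfold nF
      exact Finset.filter_subset _ _
    rw [Finset.sum_eq_single_of_mem _ hmem (fun E _ hne => by
      rw [if_neg (Ne.symm hne), mul_zero]), if_pos rfl, mul_one]
  have hsw : ∑ r ∈ Rs f s, (1 / 2 : ℝ) ^ (P3 cls s).card *
      ∑ N ∈ (P3 cls s).powerset, Ψ s (nF cls κ s (r : ℤ) N) =
      ∑ E ∈ Fintype.piFinset (fun _ : Fin 3 => (Q0 s).powerset), Ψ s E *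
        ∑ r ∈ Rs f s, (1 / 2 : ℝ) ^ (P3 cls s).card * ∑ N ∈ (P3 cls s).powerset,
          (if nF cls κ s (r : ℤ) N = E then (1 : ℝ) else 0) := by
    have h1 : ∀ r ∈ Rs f s, (1 / 2 : ℝ) ^ (P3 cls s).card *
        ∑ N ∈ (P3 cls s).powerset, Ψ s (nF cls κ s (r : ℤ) N) =
        ∑ E ∈ Fintype.piFinset (fun _ : Fin 3 => (Q0 s).powerset), Ψ s E *
          ((1 / 2 : ℝ) ^ (P3 cls s).card * ∑ N ∈ (P3 cls s).powerset,
            (if nF cls κ s (r : ℤ) N = E then (1 : ℝ) else 0)) := by
      intro r _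
      rw [Finset.sum_congr rfl (fun N _ => hfib r N), Finset.sum_comm, Finset.mul_sum]
      refine Finset.sum_congr rfl fun E _ => ?_
      rw [← Finset.mul_sum]
      ring
    rw [Finset.sum_congr rfl h1, Finset.sum_comm]
    refine Finset.sum_congr rfl fun E _ => ?_
    rw [← Finset.mul_sum]
  rw [hsw, Finset.sum_mul]
  refine Finset.sum_congr rfl fun E hE => ?_
  have hE' : ∀ i, E i ⊆ M.primeFactors := by
    intro i
    rw [Fintype.mem_piFinset] at hE
    exact mem_powerset.1 (hE i)
  rw [hcount E hE', mul_assoc]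
  congr 1
  unfold WE gw
  rw [hprod, ← Finset.prod_mul_distrib]
  refine Finset.prod_congr rfl fun j _ => ?_
  rw [← Finset.prod_mul_distrib]
  exact Finset.prod_congr rfl fun p hp => hloc E j p hp

end Pool.Agent.L7h46.FD
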